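import Mathlib
import Pool.Agent.H83.Om3

/-! Q2: there are Omega-numbers one of which is strictly sw-below the other; indeed every
Omega-number has one strictly sw-below it (its third). -/

set_option autoImplicit false

namespace Pool.Agent.Results.MP_a2e505_lc.SWStrict

open Pool.Agent.H83.Om

theorem result : (∃ A B : ℕ → Bool, IsOmega A ∧ IsOmega B ∧ SW A B ∧ ¬ SW B A) ∧
    ∀ B : ℕ → Bool, IsOmega B → ∃ A, IsOmega A ∧ SW A B ∧ ¬ SW B A := by
  have h : ∀ B : ℕ → Bool, IsOmega B → ∃ A, IsOmega A ∧ SW A B ∧ ¬ SW B A := fun B hB =>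
    ⟨T B, ⟨hB.lc.third.left, third_ml hB.2⟩, sw_third B, not_sw hB.2⟩
  obtain ⟨B, h1, h2⟩ := exists_omega
  obtain ⟨A, a1, a2⟩ := h B ⟨h1.left, h2⟩
  exact ⟨⟨A, B, a1, ⟨h1.left, h2⟩, a2⟩, h⟩

end Pool.Agent.Results.MP_a2e505_lc.SWStrict
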