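import Mathlib
import Pool.Agent.H83.Om3

/-! Q1: no Omega-number is strictly truth-table below another one. -/

set_option autoImplicit false

namespace Pool.Agent.Results.MP_a2e505_lc.TTSymm

open Pool.Agent.H83.Om

theorem result : ∀ A B : ℕ → Bool, IsOmega A → IsOmega B → TT A B → TT B A :=
  fun _ _ => tt_symm

end Pool.Agent.Results.MP_a2e505_lc.TTSymm
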